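import Pool.Agent.W580.SH.StmA

/-!
Project SH (helper580), part BASIS: a basis with a minor of maximal absolute value.
-/

set_option autoImplicit false

namespace Pool.Agent.W179.SH

open Pool.Agent.W580.SH

theorem main (h : S_MINOR) : S_BASIS := by
  intro R _ _ D
  obtain ⟨K, hK⟩ : ∃ K : Set ℕ, K = {k | ∃ c : Fin k → (R → ℝ), (∀ j, c j ∈ D) ∧
    LinearIndependent ℝ c} := ⟨_, rfl⟩
  have hne : K.Nonempty := by
    rw [hK]
    exact ⟨0, Fin.elim0, fun j => j.elim0, linearIndependent_empty_type⟩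
  have hbdd : BddAbove K := by
    refine ⟨Module.finrank ℝ (R → ℝ), ?_⟩
    rintro k hk
    rw [hK] at hk
    obtain ⟨c, -, hc⟩ := hk
    simpa using hc.fintype_card_le_finrank
  obtain ⟨k, hkdef⟩ : ∃ k, k = sSup K := ⟨_, rfl⟩
  have hkK : k ∈ K := hkdef ▸ Nat.sSup_mem hne hbdd
  have hkmax : ∀ k' ∈ K, k' ≤ k := fun k' hk' => hkdef ▸ le_csSup hbdd hk'
  rw [hK] at hkK
  obtain ⟨c, hcD, hc⟩ := hkK
  obtain ⟨r, hr⟩ := (h R k c).1 hc
  have hnon : Nonempty ((Fin k → R) × (Fin k → D)) := ⟨(r, fun j => ⟨c j, hcD j⟩)⟩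
  obtain ⟨⟨ρ, b⟩, hmax⟩ := Finite.exists_max
    (fun x : (Fin k → R) × (Fin k → D) => |mn x.1 (fun j => (x.2 j : R → ℝ))|)
  have hρb : mn ρ (fun j => (b j : R → ℝ)) ≠ 0 := by
    have h1 := hmax (r, fun j => ⟨c j, hcD j⟩)
    have h2 : 0 < |mn r c| := abs_pos.2 hr
    exact abs_pos.1 (lt_of_lt_of_le h2 h1)
  have hind : LinearIndependent ℝ (fun j => (b j : R → ℝ)) := (h R k _).2 ⟨ρ, hρb⟩
  refine ⟨k, ρ, fun j => b j, fun j => (b j).2, hρb, ?_, ?_⟩
  · intro y hy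
    have hspan : y ∈ Submodule.span ℝ (Set.range (fun j => (b j : R → ℝ))) := by
      by_contra hnot
      have h1 : LinearIndependent ℝ (Fin.cons y (fun j => (b j : R → ℝ)) : Fin (k + 1) → (R → ℝ)) :=
        linearIndependent_finCons.2 ⟨hind, hnot⟩
      have h2 : k + 1 ∈ K := by
        rw [hK]
        refine ⟨_, ?_, h1⟩
        intro j
        refine Fin.cases ?_ (fun i => ?_) j
        · exact hy
        · exact (b i).2
      have := hkmax _ h2
      omega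
    obtain ⟨β, hβ⟩ := (Submodule.mem_span_range_iff_exists_fun ℝ).1 hspan
    exact ⟨β, hβ.symm⟩
  · intro ρ' b' hb'
    exact hmax (ρ', fun j => ⟨b' j, hb' j⟩)

end Pool.Agent.W179.SH
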